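import Pool.Agent.Helper14.CV.StB

/-!
# CORE from B3a, B3b, UB, LB
-/

set_option autoImplicit false

namespace Pool.Agent.Helper22.CV

open Pool.Agent.Helper14.CV

/-- The image of `ev` on the symbols of level `2^n`. -/
noncomputable def V (n : ℕ) : Submodule ℂ (ℕ → ℕ → ℂ) := (XS n).map evL

/-- The image of `ev` on the new symbols of level `2^n`. -/
noncomputable def W (n : ℕ) : Submodule ℂ (ℕ → ℕ → ℂ) := (NS n).map evL

theorem V_le_of_B3a (h : StB3a) {n : ℕ} (hn : 3 ≤ n) : V n ≤ V (n - 1) ⊔ W n := by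
  rintro x ⟨G, hG, rfl⟩
  obtain ⟨G0, G1, h0, h1, h2⟩ := h n G hn hG
  refine Submodule.mem_sup.mpr ⟨evL G0, ⟨G0, h0, rfl⟩, evL G1, ⟨G1, h1, rfl⟩, ?_⟩
  funext i j
  exact (h2 i j).symm

theorem W_bound (h : StUB) {n : ℕ} (hn : 3 ≤ n) :
    Module.Finite ℂ (W n) ∧ Module.finrank ℂ (W n) ≤ dd n ∧
      ∀ G : ℤ → ℤ → ℂ, NewSym n G → evL G = 0 → ¬ EqC G 0 →
        Module.finrank ℂ (W n) + 1 ≤ dd n := by
  obtain ⟨Θ, hΘ⟩ := h n hn
  set f : NS n →ₗ[ℂ] (ℕ → ℕ → ℂ) := evL ∘ₗ (NS n).subtype with hf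
  have hker : LinearMap.ker Θ ≤ LinearMap.ker f := by
    intro G hG
    have h1 : EqC (G : ℤ → ℤ → ℂ) 0 := hΘ G (LinearMap.mem_ker.mp hG)
    refine LinearMap.mem_ker.mpr ?_
    funext i j
    show ev 1 (G : ℤ → ℤ → ℂ) i j = 0
    rw [ev_congr 1 h1 i j]
    have h3 : evL (0 : ℤ → ℤ → ℂ) = 0 := map_zero evL
    exact congrFun (congrFun h3 i) j
  set g : LinearMap.range Θ →ₗ[ℂ] (ℕ → ℕ → ℂ) :=
    (Submodule.liftQ (LinearMap.ker Θ) f hker) ∘ₗ (Θ.quotKerEquivRange.symm).toLinearMap with hg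
  have hgΘ : ∀ G : NS n, g ⟨Θ G, LinearMap.mem_range_self Θ G⟩ = f G := by
    intro G
    have h1 : Θ.quotKerEquivRange.symm ⟨Θ G, LinearMap.mem_range_self Θ G⟩ =
        (LinearMap.ker Θ).mkQ G := by
      rw [LinearEquiv.symm_apply_eq]
      rfl
    show (Submodule.liftQ (LinearMap.ker Θ) f hker)
      (Θ.quotKerEquivRange.symm ⟨Θ G, LinearMap.mem_range_self Θ G⟩) = f G
    rw [h1]
    rfl
  have hrange : W n = LinearMap.range g := by
    ext x
    constructor
    · rintro ⟨G, hG, rfl⟩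
      exact ⟨⟨Θ ⟨G, hG⟩, LinearMap.mem_range_self Θ _⟩, hgΘ ⟨G, hG⟩⟩
    · rintro ⟨⟨y, G, rfl⟩, rfl⟩
      exact ⟨(G : ℤ → ℤ → ℂ), G.2, (hgΘ G).symm⟩
  have hfin : Module.Finite ℂ (W n) := by
    rw [hrange]
    infer_instance
  have hrk := LinearMap.finrank_range_add_finrank_ker g
  have hle : Module.finrank ℂ (LinearMap.range Θ) ≤ dd n := by
    have := Submodule.finrank_le (LinearMap.range Θ)
    simpa using this
  refine ⟨hfin, ?_, ?_⟩
  · rw [hrange]
    omega
  · intro G hG he hne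
    have h1 : Θ ⟨G, hG⟩ ≠ 0 := fun h0 => hne (hΘ ⟨G, hG⟩ h0)
    have h2 : (⟨Θ ⟨G, hG⟩, LinearMap.mem_range_self Θ _⟩ : LinearMap.range Θ) ∈
        LinearMap.ker g := by
      rw [LinearMap.mem_ker, hgΘ ⟨G, hG⟩]
      exact he
    have h5 : Nontrivial (LinearMap.ker g) := by
      refine ⟨⟨⟨_, h2⟩, 0, fun h0 => h1 ?_⟩⟩
      have h4 := congrArg Subtype.val h0
      exact congrArg Subtype.val h4
    have h3 : 0 < Module.finrank ℂ (LinearMap.ker g) :=
      Module.finrank_pos (R := ℂ) (M := LinearMap.ker g)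
    rw [hrange]
    omega

theorem V_bound (h3a : StB3a) (h3b : StB3b) (hUB : StUB) (n : ℕ) (hn : 2 ≤ n) :
    Module.Finite ℂ (V n) ∧ Module.finrank ℂ (V n) ≤ DD n := by
  induction n, hn using Nat.le_induction with
  | base =>
    obtain ⟨e, he⟩ := h3b
    have hle : V 2 ≤ Submodule.span ℂ {e} := by
      rintro x ⟨G, hG, rfl⟩
      obtain ⟨x, hx⟩ := he G hG
      refine Submodule.mem_span_singleton.mpr ⟨x, ?_⟩
      funext i j
      exact (hx i j).symm
    have hfin : Module.Finite ℂ (V 2) := Submodule.finiteDimensional_of_le hle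
    refine ⟨hfin, ?_⟩
    have h1 := Submodule.finrank_mono hle
    have h2 : Module.finrank ℂ (Submodule.span ℂ {e}) ≤ 1 := by
      have := finrank_span_le_card (R := ℂ) ({e} : Set (ℕ → ℕ → ℂ))
      simpa using this
    have h3 : 1 ≤ DD 2 := Nat.le_add_right _ _
    omega
  | succ m hm ih =>
    obtain ⟨ih1, ih2⟩ := ih
    have hm3 : 3 ≤ m + 1 := by omega
    obtain ⟨w1, w2, _⟩ := W_bound hUB hm3
    have hle := V_le_of_B3a h3a hm3
    rw [Nat.add_sub_cancel] at hle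
    have hfin : Module.Finite ℂ (V m ⊔ W (m + 1) : Submodule ℂ (ℕ → ℕ → ℂ)) :=
      Submodule.finiteDimensional_sup _ _
    refine ⟨Submodule.finiteDimensional_of_le hle, ?_⟩
    have h1 := Submodule.finrank_mono hle
    have h2 := Submodule.finrank_add_le_finrank_add_finrank (V m) (W (m + 1))
    have h3 : DD (m + 1) = DD m + dd (m + 1) := by
      unfold DD
      rw [Finset.sum_range_succ]
      ring
    omega

theorem hCoreOf : StCoreOf := by
  intro h3a h3b hUB hLB n G hn hG hev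
  by_contra hne
  have he : evL G = 0 := by
    funext i j
    exact hev i j
  obtain ⟨w1, w2, w3⟩ := W_bound hUB (n := n) (by omega)
  have hw := w3 G hG he hne
  obtain ⟨v1, v2⟩ := V_bound h3a h3b hUB (n - 1) (by omega)
  have hle := V_le_of_B3a h3a (n := n) (by omega)
  have hfin : Module.Finite ℂ (V (n - 1) ⊔ W n : Submodule ℂ (ℕ → ℕ → ℂ)) :=
    Submodule.finiteDimensional_sup _ _
  have hfinV : Module.Finite ℂ (V n) := Submodule.finiteDimensional_of_le hle
  have h1 := Submodule.finrank_mono hle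
  have h2 := Submodule.finrank_add_le_finrank_add_finrank (V (n - 1)) (W n)
  have h3 : DD n = DD (n - 1) + dd n := by
    obtain ⟨m, rfl⟩ : ∃ m, n = m + 1 := ⟨n - 1, by omega⟩
    rw [Nat.add_sub_cancel]
    unfold DD
    rw [Finset.sum_range_succ]
    ring
  obtain ⟨H, hH, hli⟩ := hLB n hn
  have hli' : LinearIndependent ℂ (fun k => (⟨evL (H k), ⟨H k, hH k, rfl⟩⟩ : V n)) := by
    refine LinearIndependent.of_comp (V n).subtype ?_
    exact hli
  have h4 := hli'.fintype_card_le_finrank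
  rw [Fintype.card_fin] at h4
  omega

end Pool.Agent.Helper22.CV
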